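import Pool.Agent.Helper8.LV.SDefs

/-!
# CO: weighted substitutions
-/

set_option autoImplicit false

open MvPolynomial

namespace Pool.Agent.Helper91.CO

/-- The derivative `(∂F₀/∂Y_j)(X, H)`, where `F₀` is a polynomial in the variables `X_0, ..., X_N` (`Sum.inl`) and
`Y_0, ..., Y_(n-1)` (`Sum.inr`). -/
noncomputable def mder {k M : Type*} [Field k] [Field M] [Algebra k M] {N n : ℕ}
    (F₀ : MvPolynomial (Fin (N + 1) ⊕ Fin n) k) (H : Fin n → MvPolynomial (Fin (N + 1)) M)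
    (j : Fin n) : MvPolynomial (Fin (N + 1)) M :=
  aeval (Sum.elim X H) (pderiv (Sum.inr j) F₀)

/-- The weights: `X_l` has weight `1`, `Y_j` has weight `h j`. -/
def wts (N : ℕ) {n : ℕ} (h : Fin n → ℕ) : Fin (N + 1) ⊕ Fin n → ℕ :=
  Sum.elim (fun _ => 1) h

end Pool.Agent.Helper91.CO
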