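import Pool.Agent.Helper91.CO.Stat

/-! # CO: degrees of `F₀(X, H)` and of its derivatives -/

set_option autoImplicit false

open MvPolynomial

namespace Pool.Agent.Helper91.CO

open scoped BigOperators

theorem hom_aeval {k L : Type*} [Field k] [Field L] [Algebra k L] {N n D : ℕ} (h : Fin n → ℕ)
    (F₀ : MvPolynomial (Fin (N + 1) ⊕ Fin n) k) (hF₀ : IsWeightedHomogeneous (wts N h) F₀ D)
    (H : Fin n → MvPolynomial (Fin (N + 1)) L) (hH : ∀ j, (H j).IsHomogeneous (h j)) :
    (aeval (Sum.elim X H) F₀ : MvPolynomial (Fin (N + 1)) L).IsHomogeneous D := by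
  rw [aeval_def, eval₂_eq]
  refine IsHomogeneous.sum _ _ _ fun m hm => ?_
  have hw : Finsupp.weight (wts N h) m = D := hF₀ (mem_support_iff.1 hm)
  rw [Finsupp.weight_apply, Finsupp.sum] at hw
  have hs : ∀ i : Fin (N + 1) ⊕ Fin n,
      (Sum.elim X H i : MvPolynomial (Fin (N + 1)) L).IsHomogeneous (wts N h i) := by
    rintro (i | j)
    · exact isHomogeneous_X L i
    · exact hH j
  have hp : (∏ i ∈ m.support, (Sum.elim X H i : MvPolynomial (Fin (N + 1)) L) ^ m i).IsHomogeneous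
      (∑ i ∈ m.support, wts N h i * m i) :=
    IsHomogeneous.prod _ _ _ fun i _ => (hs i).pow (m i)
  have hc : (algebraMap k (MvPolynomial (Fin (N + 1)) L) (coeff m F₀)).IsHomogeneous 0 := by
    rw [IsScalarTower.algebraMap_apply k L (MvPolynomial (Fin (N + 1)) L)]
    exact isHomogeneous_C _ _
  have := hc.mul hp
  rw [zero_add] at this
  rw [← hw]
  refine (Eq.subst ?_ this)
  exact Finset.sum_congr rfl fun i _ => by rw [smul_eq_mul, mul_comm]

theorem hom_mder {k L : Type*} [Field k] [Field L] [Algebra k L] {N n D b : ℕ} (h : Fin n → ℕ)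
    (F₀ : MvPolynomial (Fin (N + 1) ⊕ Fin n) k) (hF₀ : IsWeightedHomogeneous (wts N h) F₀ D)
    (H : Fin n → MvPolynomial (Fin (N + 1)) L) (hH : ∀ j, (H j).IsHomogeneous (h j)) (j : Fin n)
    (hb : D = b + h j) : (mder F₀ H j).IsHomogeneous b :=
  hom_aeval h _ (hF₀.pderiv hb.symm) H hH

end Pool.Agent.Helper91.CO
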