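import Pool.Agent.Helper8.CO.Cert
import Pool.Agent.Helper8.LG.Poly

/-! # CO: the Nullstellensatz for forms without common zero -/

set_option autoImplicit false

open MvPolynomial

namespace Pool.Agent.Helper91.CO

open scoped BigOperators
open Pool.Agent.Helper8.LG

theorem form_C_cf {L : Type*} [Field L] {N n : ℕ} (P : MvPolynomial (Fin (N + 1)) L)
    (hP : P.IsHomogeneous n) :
    form (fun J => C (cf n P J)) (X : Fin (N + 1) → MvPolynomial (Fin (N + 1)) L) = P := by
  classical
  have h1 : form (fun J => C (cf n P J)) (X : Fin (N + 1) → MvPolynomial (Fin (N + 1)) L) =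
      ∑ m ∈ Finset.univ.image (fun J : Sym (Fin (N + 1)) n =>
        Multiset.toFinsupp (J : Multiset (Fin (N + 1)))), monomial m (coeff m P) := by
    rw [Finset.sum_image fun a _ b _ h => poly_toFinsupp_inj h, form]
    refine Finset.sum_congr rfl fun J _ => ?_
    rw [poly_mon_eq, cf, monomial_eq, Finsupp.prod_fintype _ _ fun _ => pow_zero _]
  rw [h1]
  conv_rhs => rw [P.as_sum]
  symm
  refine Finset.sum_subset (fun m hm => ?_) fun m _ hm => ?_
  · have h2 : m.degree = n := by
      by_contra h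
      exact (mem_support_iff.1 hm) (hP.coeff_eq_zero h)
    obtain ⟨J, hJ⟩ := poly_exists_sym m h2
    exact Finset.mem_image.2 ⟨J, Finset.mem_univ _, hJ⟩
  · rw [notMem_support_iff.1 hm, monomial_zero]

/-- forms without common zero -/
theorem exists_nulP {L : Type*} [Field L] {N r n : ℕ} (b : Fin r → Fin n → ℕ)
    (m : Fin r → Fin n → MvPolynomial (Fin (N + 1)) L)
    (hm : ∀ i j, (m i j).IsHomogeneous (b i j)) (N₀ : Finset (Fin r))
    (h : ∀ i ∈ N₀, ∀ y : Fin (N + 1) → AlgebraicClosure L, (∀ j, aeval y (m i j) = 0) → y = 0) :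
    Pool.Agent.Helper8.CO.NulP (fun s : Fin r × Fin n => s.1)
      (fun s => cf (b s.1 s.2) (m s.1 s.2)) N₀ := by
  classical
  intro i hi l
  have h1 : (X l : MvPolynomial (Fin (N + 1)) L) ∈
      vanishingIdeal L (zeroLocus (AlgebraicClosure L) (Ideal.span (Set.range (m i)))) := by
    rw [mem_vanishingIdeal_iff]
    intro x hx
    have hx0 : x = 0 := h i hi x fun j =>
      (mem_zeroLocus_iff.1 hx) _ (Ideal.subset_span ⟨j, rfl⟩)
    rw [aeval_X, hx0]
    rfl
  rw [vanishingIdeal_zeroLocus_eq_radical] at h1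
  obtain ⟨R, hR⟩ := h1
  obtain ⟨c, hc⟩ := Ideal.mem_span_range_iff_exists_fun.1 hR
  refine ⟨R, fun t => c t.2, ?_⟩
  rw [← hc, Fintype.sum_prod_type]
  rw [Finset.sum_eq_single i]
  · refine Finset.sum_congr rfl fun j _ => ?_
    rw [if_pos rfl]
    rw [form_C_cf (m i j) (hm i j)]
  · intro i' _ hne
    exact Finset.sum_eq_zero fun j _ => if_neg hne
  · intro hni
    exact absurd (Finset.mem_univ i) hni

end Pool.Agent.Helper91.CO
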