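import Pool.Agent.Helper8.CO.EngC
import Pool.Agent.Helper8.LV.MainV

/-! # CO: generic weighted substitutions, over schemes -/

set_option autoImplicit false

open AlgebraicGeometry CategoryTheory CategoryTheory.Limits MvPolynomial

namespace Pool.Agent.Helper91.CO

open scoped BigOperators LinearAlgebra.Projectivization
open Pool.Agent.Helper8.LG hiding coeffField
open Pool.Agent.Helper8.LV
open Pool.Agent.Helper10.LB

attribute [local instance] MvPolynomial.gradedAlgebra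

universe u v

/-- the conditions on a vector `x` of coordinates over `K` -/
def CondC {k₀ K M : Type*} [Field k₀] [Field K] [Field M] [Algebra k₀ M] [Algebra K M]
    {N r n : ℕ} (m : Fin r → ℕ) (F : Fin r → MvPolynomial (Fin (N + 1)) K)
    (g : GL (Fin (N + 1)) M) (F₀ : Fin r → MvPolynomial (Fin (N + 1) ⊕ Fin n) k₀)
    (H : Fin r → Fin n → MvPolynomial (Fin (N + 1)) M)
    (Z C : Finset (Fin r)) (w : ℕ) (x : Fin (N + 1) → K) : Prop :=
  (∀ i, ∃ j, eval (pull g x) (mder (F₀ i) (H i) j) ≠ 0) ∧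
    Algebra.trdeg k₀ (ratioField k₀ (pull g x)) ≤ w ∧
    (∀ i ∈ Z, eval x (F i) = 0) ∧ ∀ i ∈ C, ∃ y : K, y ^ m i = eval x (F i)

/-- the conditions on a normalised vector `y` over `M` -/
def CondD {k₀ M : Type*} [Field k₀] [Field M] [Algebra k₀ M]
    {N r n : ℕ} (m : Fin r → ℕ) (F : Fin r → MvPolynomial (Fin (N + 1)) M)
    (F₀ : Fin r → MvPolynomial (Fin (N + 1) ⊕ Fin n) k₀)
    (H : Fin r → Fin n → MvPolynomial (Fin (N + 1)) M)
    (Z C : Finset (Fin r)) (w : ℕ) (y : Fin (N + 1) → M) : Prop :=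
  Algebra.trdeg k₀ (IntermediateField.adjoin k₀ (Set.range y)) ≤ w ∧
    (∀ i, ∃ j, eval y (mder (F₀ i) (H i) j) ≠ 0) ∧ (∀ i ∈ Z, eval y (F i) = 0) ∧
    ∀ i ∈ C, ∃ z : M, z ^ m i = eval y (F i)

theorem cond_CD {k₀ K M : Type*} [Field k₀] [Field K] [Field M] [Algebra k₀ M] [Algebra K M]
    {N r n : ℕ} (d m : Fin r → ℕ) (b : Fin r → Fin n → ℕ)
    (F : Fin r → MvPolynomial (Fin (N + 1)) K) (hF : ∀ i, (F i).IsHomogeneous (d i))
    (g : GL (Fin (N + 1)) M) (F₀ : Fin r → MvPolynomial (Fin (N + 1) ⊕ Fin n) k₀)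
    (H : Fin r → Fin n → MvPolynomial (Fin (N + 1)) M)
    (hP : ∀ i j, (mder (F₀ i) (H i) j).IsHomogeneous (b i j))
    (Z C : Finset (Fin r)) (hm : ∀ i ∈ C, m i ∣ d i) (w : ℕ) (x : Fin (N + 1) → K)
    (h : CondC m F g F₀ H Z C w x) (i₀ : Fin (N + 1))
    (h0 : (g⁻¹ : GL (Fin (N + 1)) M).1.mulVec (fun l => algebraMap K M (x l)) i₀ ≠ 0) :
    CondD m (fun i => subst (g : Matrix _ _ M) (F i)) F₀ H Z C w
      fun i => (g⁻¹ : GL (Fin (N + 1)) M).1.mulVec (fun l => algebraMap K M (x l)) i /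
        (g⁻¹ : GL (Fin (N + 1)) M).1.mulVec (fun l => algebraMap K M (x l)) i₀ := by
  classical
  obtain ⟨h1, h2, h3, h4⟩ := h
  unfold pull at h1 h2
  obtain ⟨y, hy⟩ : ∃ y : Fin (N + 1) → M,
      y = (g⁻¹ : GL (Fin (N + 1)) M).1.mulVec (fun l => algebraMap K M (x l)) := ⟨_, rfl⟩
  rw [← hy] at h0 h1 h2 ⊢
  have hgy : (g : Matrix (Fin (N + 1)) (Fin (N + 1)) M).mulVec y =
      fun l => algebraMap K M (x l) := by
    rw [hy, Matrix.mulVec_mulVec, ← Matrix.GeneralLinearGroup.coe_mul, mul_inv_cancel,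
      Matrix.GeneralLinearGroup.coe_one, Matrix.one_mulVec]
  have hev : ∀ i, eval y (subst (g : Matrix _ _ M) (F i)) = algebraMap K M (eval x (F i)) := by
    intro i
    rw [eval_subst, hgy, aeval_def]
    exact (eval₂_comp_left (algebraMap K M) (RingHom.id K) x (F i)).symm
  have hev' : ∀ i, eval (fun l => y l / y i₀) (subst (g : Matrix _ _ M) (F i)) =
      algebraMap K M (eval x (F i)) / y i₀ ^ d i := by
    intro i
    rw [eval_div_hom _ (subst_hom _ _ (hF i)), hev]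
  refine ⟨?_, ?_, ?_, ?_⟩
  · refine (trdeg_le_of_injective (IntermediateField.inclusion ?_)
      (IntermediateField.inclusion_injective _)).trans h2
    rw [ratioField]
    refine IntermediateField.adjoin.mono _ _ _ ?_
    rintro _ ⟨i, rfl⟩
    exact ⟨i, i₀, rfl⟩
  · intro i
    obtain ⟨j, hj⟩ := h1 i
    refine ⟨j, ?_⟩
    rw [eval_div_hom _ (hP i j)]
    exact div_ne_zero hj (pow_ne_zero _ h0)
  · intro i hi
    simp only
    rw [hev', h3 i hi, map_zero, zero_div]
  · intro i hi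
    obtain ⟨z, hz⟩ := h4 i hi
    refine ⟨algebraMap K M z / y i₀ ^ (d i / m i), ?_⟩
    simp only
    rw [hev', div_pow, ← map_pow, hz, ← pow_mul, Nat.div_mul_cancel (hm i hi)]

set_option maxHeartbeats 400000 in
/-- the passage from fields to schemes -/
theorem main_engC {κ : Type*} [CommRing κ] {B : Scheme.{u}} [IsIntegral B]
    [Algebra κ B.functionField]
    (V : B.Opens) [Nonempty V] (hV : IsAffineOpen V) (A₀ : Subalgebra κ B.functionField)
    (hA₀ : A₀.FG) (hVA : ∀ b : Γ(B, V), B.germToFunctionField V b ∈ A₀)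
    {U : Scheme.{u}} (π : U ⟶ B) [IsSeparated π] [LocallyOfFiniteType π] [QuasiCompact π]
    {N r n : ℕ} (d m : Fin r → ℕ) (b : Fin r → Fin n → ℕ) (hd : ∀ i, 0 < d i)
    (F : Fin r → MvPolynomial (Fin (N + 1)) B.functionField)
    (hF : ∀ i, (F i).IsHomogeneous (d i))
    (f : genFib π ⟶ PN N B.functionField) (hf : f ≫ PN.toSpec N _ = pullback.snd _ _)
    [LocallyQuasiFinite f] (Z C : Finset (Fin r)) (hm : ∀ i ∈ C, m i ∣ d i)
    (hU : ∀ i ∉ Z, i ∉ C → ∀ z : genFib π, NonVanishing (f z) (F i))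
    (k₀ : Subfield B.functionField)
    (M : Type v) [Field M] [Algebra B.functionField M] [Algebra κ M]
    [IsScalarTower κ B.functionField M] (g : GL (Fin (N + 1)) M)
    (F₀ : Fin r → MvPolynomial (Fin (N + 1) ⊕ Fin n) k₀)
    (H : Fin r → Fin n → MvPolynomial (Fin (N + 1)) M)
    (hP : ∀ i j, (mder (F₀ i) (H i) j).IsHomogeneous (b i j)) (w : ℕ)
    (hfin : ∀ (i₀ : Fin (N + 1)) (A : Subalgebra κ M), A.FG →
      {y : Fin (N + 1) → M | y i₀ = 1 ∧
        CondD m (fun i => subst (g : Matrix _ _ M) (F i)) F₀ H Z C w y ∧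
        ∀ i ∈ (Z ∪ C)ᶜ, eval y (subst (g : Matrix _ _ M) (F i)) ≠ 0 ∧
          ∀ J : Sym (Fin (N + 1)) (d i),
            mon y J / eval y (subst (g : Matrix _ _ M) (F i)) ∈ A}.Finite) :
    {σ : B ⟶ U | ∃ hσ : σ ≫ π = 𝟙 B, ∀ (t : Spec B.functionField)
      (x : Fin (N + 1) → B.functionField), IsCoord (f (genPt π σ hσ t)) x →
      CondC m F g F₀ H Z C w x}.Finite := by
  classical
  refine wrap_core (κ := κ) V hV A₀ hA₀ hVA π d hd F hF f hf (Z ∪ C)ᶜ ?_ M
    (CondC m F g F₀ H Z C w) ?_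
  · intro i hi
    rw [Finset.mem_compl, Finset.mem_union] at hi
    push Not at hi
    exact hU i hi.1 hi.2
  · intro A hA
    have h0 := points (κ := κ) (L := B.functionField) (M := M) d F hF g (Z ∪ C)ᶜ
      (CondD m (fun i => subst (g : Matrix _ _ M) (F i)) F₀ H Z C w)
    have h1 := h0 hfin A hA
    refine h1.subset ?_
    rintro x ⟨h1, h2⟩
    exact ⟨fun i₀ h0 => cond_CD d m b F hF g F₀ H hP Z C hm w x.rep h1 i₀ h0, h2⟩

theorem aeval_X_map {k M σ : Type*} [CommRing k] [CommRing M] [Algebra k M]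
    (A : MvPolynomial σ k) :
    (aeval (X : σ → MvPolynomial σ M) A : MvPolynomial σ M) = map (algebraMap k M) A := by
  induction A using MvPolynomial.induction_on with
  | C c => rw [map_C, ← algebraMap_eq, AlgHom.commutes, IsScalarTower.algebraMap_apply k M
      (MvPolynomial σ M), algebraMap_eq]
  | add p q hp hq => rw [map_add, map_add, hp, hq]
  | mul_X p i hp => rw [map_mul, map_mul, hp, aeval_X, map_X]

theorem aeval_lin {k M : Type*} [Field k] [Field M] [Algebra k M] {N n : ℕ}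
    (A : MvPolynomial (Fin (N + 1)) k) (P : Fin n → MvPolynomial (Fin (N + 1)) k)
    (H : Fin n → MvPolynomial (Fin (N + 1)) M) :
    (aeval (Sum.elim X H) (rename Sum.inl A + ∑ j, rename Sum.inl (P j) * X (Sum.inr j) :
      MvPolynomial (Fin (N + 1) ⊕ Fin n) k) : MvPolynomial (Fin (N + 1)) M) =
      map (algebraMap k M) A + ∑ j, map (algebraMap k M) (P j) * H j := by
  have h1 : ∀ Q : MvPolynomial (Fin (N + 1)) k,
      (aeval (Sum.elim X H) (rename Sum.inl Q : MvPolynomial (Fin (N + 1) ⊕ Fin n) k) :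
        MvPolynomial (Fin (N + 1)) M) = map (algebraMap k M) Q := by
    intro Q
    rw [aeval_rename, ← aeval_X_map]
    rfl
  rw [map_add, map_sum, h1]
  congr 1
  refine Finset.sum_congr rfl fun j _ => ?_
  rw [map_mul, h1, aeval_X, Sum.elim_inr]

theorem pderiv_rename_inl {k : Type*} [Field k] {N n : ℕ} (A : MvPolynomial (Fin (N + 1)) k)
    (j : Fin n) : pderiv (Sum.inr j) (rename Sum.inl A : MvPolynomial (Fin (N + 1) ⊕ Fin n) k)
      = 0 := by
  induction A using MvPolynomial.induction_on with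
  | C c => rw [rename_C, pderiv_C]
  | add p q hp hq => rw [map_add, map_add, hp, hq, add_zero]
  | mul_X p i hp =>
    rw [map_mul, rename_X, Derivation.leibniz, hp, pderiv_X_of_ne (by simp), smul_zero,
      smul_zero, add_zero]

theorem mder_lin {k M : Type*} [Field k] [Field M] [Algebra k M] {N n : ℕ}
    (A : MvPolynomial (Fin (N + 1)) k) (P : Fin n → MvPolynomial (Fin (N + 1)) k)
    (H : Fin n → MvPolynomial (Fin (N + 1)) M) (j : Fin n) :
    mder (rename Sum.inl A + ∑ j, rename Sum.inl (P j) * X (Sum.inr j) :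
      MvPolynomial (Fin (N + 1) ⊕ Fin n) k) H j = map (algebraMap k M) (P j) := by
  classical
  have h1 : pderiv (Sum.inr j) (rename Sum.inl A + ∑ j, rename Sum.inl (P j) * X (Sum.inr j) :
      MvPolynomial (Fin (N + 1) ⊕ Fin n) k) = rename Sum.inl (P j) := by
    rw [map_add, pderiv_rename_inl, zero_add, map_sum, Finset.sum_eq_single j]
    · rw [Derivation.leibniz, pderiv_rename_inl, smul_zero, add_zero, pderiv_X_self, smul_eq_mul,
        mul_one]
    · intro l _ hl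
      rw [Derivation.leibniz, pderiv_rename_inl, smul_zero, add_zero, pderiv_X_of_ne
        (fun h => hl (Sum.inr_injective h)), smul_zero]
    · intro h
      exact absurd (Finset.mem_univ j) h
  rw [mder, h1, aeval_rename, ← aeval_X_map]
  rfl

set_option maxHeartbeats 400000 in
theorem main_c (R : CommRingCat.{u}) (B : Scheme.{u}) [IsIntegral B] (s : B ⟶ Spec R)
    [LocallyOfFiniteType s] [CharZero B.functionField]
    (U : Scheme.{u}) (π : U ⟶ B) [IsSeparated π] [LocallyOfFiniteType π] [QuasiCompact π]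
    {N r n : ℕ} (d q m : Fin r → ℕ) (b : Fin r → Fin n → ℕ) (hq : ∀ i, 0 < q i)
    (hb : ∀ i j, b i j + q i ≤ d i)
    (F : Fin r → MvPolynomial (Fin (N + 1)) B.functionField)
    (hF : ∀ i, (F i).IsHomogeneous (d i))
    (f : genFib π ⟶ PN N B.functionField) (hf : f ≫ PN.toSpec N _ = pullback.snd _ _)
    [LocallyQuasiFinite f]
    (Z C : Finset (Fin r)) (hZC : Disjoint Z C) (hm : ∀ i ∈ C, m i ∣ d i)
    (hU : ∀ i ∉ Z, i ∉ C → ∀ z : genFib π, NonVanishing (f z) (F i))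
    (k₀ : Subfield B.functionField)
    (hk₀ : ∀ r : R, (Spec.preimage (B.fromSpecStalk (genericPoint B) ≫ s)).hom r ∈ k₀)
    (M : Type v) [Field M] [Algebra B.functionField M]
    (hM : (⊤ : IntermediateField B.functionField M).FG) (g : GL (Fin (N + 1)) M)
    (F₀ : Fin r → MvPolynomial (Fin (N + 1) ⊕ Fin n) k₀)
    (hF₀ : ∀ i, IsWeightedHomogeneous (wts N fun j => d i - b i j) (F₀ i) (d i))
    (H : Fin r → Fin n → MvPolynomial (Fin (N + 1)) M)
    (hH : ∀ i j, (H i j).IsHomogeneous (d i - b i j))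
    (hFA : ∀ i, subst (g : Matrix _ _ M) (F i) = aeval (Sum.elim X (H i)) (F₀ i))
    (T : Finset (Fin r)) (hT : ∀ i ∈ T, ∀ y : Fin (N + 1) → AlgebraicClosure M,
      (∀ j, aeval y (mder (F₀ i) (H i) j) = 0) → y = 0)
    (w c : ℕ)
    (hcoef : ((∑ i, ∑ j, (N + (d i - b i j)).choose N : ℕ) : Cardinal) ≤
      Algebra.trdeg k₀ (coeffField k₀ H) + c)
    (hnum : 2 * w + 2 + c + ∑ i ∈ C, d i / m i ≤
        ∑ i, Pool.Agent.Helper6.CO.qm T d q i + Z.card ∨
      ((∃ (A : Fin r → MvPolynomial (Fin (N + 1)) k₀)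
          (P : Fin r → Fin n → MvPolynomial (Fin (N + 1)) k₀),
          (∀ i, (A i).IsHomogeneous (d i)) ∧ (∀ i j, (P i j).IsHomogeneous (b i j)) ∧
          ∀ i, F₀ i = rename Sum.inl (A i) + ∑ j, rename Sum.inl (P i j) * X (Sum.inr j)) ∧
        ((Z = Finset.univ ∧ 2 * w + 1 + c ≤ ∑ i, (q i + 1) ∧ w + 2 ≤ ∑ i, q i ∧
          2 * N + c ≤ ∑ i, (q i + 1) + 1) ∨
        (Algebra.FiniteType ℤ R ∧ C = ∅ ∧ 2 * N + 1 + c ≤ ∑ i, q i + Z.card ∧
          N + 2 ≤ ∑ i, q i)))) :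
    {σ : B ⟶ U | ∃ hσ : σ ≫ π = 𝟙 B, ∀ (t : Spec B.functionField)
      (x : Fin (N + 1) → B.functionField), IsCoord (f (genPt π σ hσ t)) x →
      CondC m F g F₀ H Z C w x}.Finite := by
  classical
  haveI : CharZero M :=
    charZero_of_injective_algebraMap (algebraMap B.functionField M).injective
  by_cases hn : Nonempty (Fin r → Fin n)
  swap
  · -- no multipliers
    have hr : ∃ i : Fin r, ∀ j : Fin n, False := by
      by_contra hne
      push Not at hne
      exact hn ⟨fun i => (hne i).choose⟩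
    obtain ⟨i, hi⟩ := hr
    refine Set.Finite.subset Set.finite_empty ?_
    rintro σ ⟨hσ, h1⟩
    obtain ⟨t⟩ : Nonempty (Spec B.functionField) := inferInstance
    obtain ⟨x, hx⟩ := exists_coord (genPt π σ hσ ≫ f)
      (by rw [Category.assoc, hf]; exact ffib_snd π σ hσ) t
    obtain ⟨j, -⟩ := (h1 t x hx).1 i
    exact hi j
  have hd : ∀ i, 0 < d i := by
    obtain ⟨j⟩ := hn
    intro i
    have := hq i
    have := hb i (j i)
    omega
  rcases hnum with hnum | ⟨⟨A, P, hA, hP, hAP⟩, hnum⟩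
  · obtain ⟨V, hVne, hV, ⟨A₀, hA₀, hVA⟩, hKfg⟩ := exists_affine_ft R s k₀ hk₀
    haveI := hVne
    have hfg : (⊤ : IntermediateField k₀ M).FG := wrap_fg_trans hKfg hM
    have hP : ∀ i j, (mder (F₀ i) (H i) j).IsHomogeneous (b i j) := by
      intro i j
      refine hom_mder (fun j => d i - b i j) (F₀ i) (hF₀ i) (H i) (hH i) j ?_
      have := hb i j
      omega
    refine main_engC (κ := k₀) V hV A₀ hA₀ hVA π d m b hd F hF f hf Z C hm hU k₀ M g F₀ H hP w ?_
    intro i₀ R' hR'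
    have h9 := Pool.Agent.Helper8.CO.eng_C (k₀ := k₀) (L := M) hfg d q m b hq hb
      (fun i => subst (g : Matrix _ _ M) (F i))
    have h12 := h9 F₀ hF₀ H hH
    have h13 := h12 hFA
    have h14 := h13 w c hcoef
    have h15 := h14 Z C T hZC hm hT hnum
    have h11 := h15 i₀ R' hR'
    refine h11.subset ?_
    rintro y ⟨h4, ⟨h5, h6, h7, h8⟩, h9⟩
    exact ⟨h4, ⟨h5, h6, h7, h8⟩, h9⟩
  · have h1 := main_v R B s U π d q m b hq hb F hF f hf Z C hZC hm hU k₀ hk₀ M hM g A hA P hP H hH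
      (fun i => by rw [hFA i, hAP i, aeval_lin]) w c hcoef (Or.inr hnum)
    refine h1.subset ?_
    rintro σ ⟨hσ, h2⟩
    refine ⟨hσ, fun t x hx => ?_⟩
    obtain ⟨h3, h4, h5, h6⟩ := h2 t x hx
    refine ⟨fun i => ?_, h4, h5, h6⟩
    obtain ⟨j, hj⟩ := h3 i
    refine ⟨j, ?_⟩
    rw [hAP i, mder_lin, MvPolynomial.eval_map, ← aeval_def] at hj
    exact hj

end Pool.Agent.Helper91.CO
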